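import Pool.Agent.Lib.MP_a37f0b_ag.Q4.Fin

/-!
The question of Nori and Rao for all regular local rings of dimension at most four.
-/

open IsLocalRing Pool.Agent.Lib.MP_a37f0b_ag

theorem Pool.Agent.Results.MP_a37f0b_ag.DimFour.result
    (R : Type) [CommRing R] [IsRegularLocalRing R] (hd : ringKrullDim R ≤ 4)
    (t : ℕ) (r : Fin t → R) (hm : ∀ i, r i ∈ maximalIdeal R)
    (hr : ∀ a : Fin t → R, ∑ i, a i * r i ∈ maximalIdeal R ^ 2 → ∀ i, a i ∈ maximalIdeal R)
    (P : Type) [AddCommGroup P] [Module (Localization.Away (∏ i, r i)) P]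
    [Module.Finite (Localization.Away (∏ i, r i)) P]
    [Module.Projective (Localization.Away (∏ i, r i)) P] :
    Module.Free (Localization.Away (∏ i, r i)) P :=
  Q4.main ⟨hm, hr⟩ P (.inl hd)
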