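import Pool.Agent.Lib.MP_a37f0b_ag.PS.Main

/-!
The question of Nori and Rao for power series rings over complete regular local rings of dimension
at most four.
-/

open IsLocalRing Pool.Agent.Lib.MP_a37f0b_ag

theorem Pool.Agent.Results.MP_a37f0b_ag.PowerSeries.result
    (B : Type) [CommRing B] [IsRegularLocalRing B] [IsAdicComplete (maximalIdeal B) B]
    (hd : ringKrullDim B ≤ 4) (t : ℕ) (r : Fin (t + 1) → B) (hm : ∀ i, r i ∈ maximalIdeal B)
    (hr : ∀ a : Fin (t + 1) → B,
      ∑ i, a i * r i ∈ maximalIdeal B ^ 2 → ∀ i, a i ∈ maximalIdeal B)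
    (n k : ℕ) (f : MvPowerSeries (Fin (n + 1)) B)
    (hf : f = MvPowerSeries.C (∏ i, r i) * MvPowerSeries.X 0 ^ k)
    (P : Type) [AddCommGroup P] [Module (Localization.Away f) P]
    [Module.Finite (Localization.Away f) P] [Module.Projective (Localization.Away f) P] :
    Module.Free (Localization.Away f) P := by
  subst hf
  exact (PS.main hd ⟨hm, hr⟩ n k).free P
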