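import Pool.Agent.Lib.MP_a37f0b_ag.Unram

/-!
The question of Nori and Rao for regular local rings whose strata are unramified or
equicharacteristic over a principal ideal domain.
-/

open IsLocalRing Pool.Agent.Lib.MP_a37f0b_ag

theorem Pool.Agent.Results.MP_a37f0b_ag.Unramified.result
    (V : Type) [CommRing V] [IsDomain V] [IsPrincipalIdealRing V] [PerfectField (FractionRing V)]
    (R : Type) [CommRing R] [IsRegularLocalRing R] [Algebra V R]
    [PerfectField ((maximalIdeal R).comap (algebraMap V R)).ResidueField]
    (π : V) (hπ : Ideal.span {π} = (maximalIdeal R).comap (algebraMap V R))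
    (t : ℕ) (r : Fin t → R) (hm : ∀ i, r i ∈ maximalIdeal R)
    (hr : ∀ a : Fin t → R, ∑ i, a i * r i ∈ maximalIdeal R ^ 2 → ∀ i, a i ∈ maximalIdeal R)
    (hU : ∀ I : Set (Fin t), algebraMap V R π ∈ Ideal.span (r '' I) ∨
      algebraMap V R π ∉ maximalIdeal R ^ 2 ⊔ Ideal.span (r '' I))
    (P : Type) [AddCommGroup P] [Module (Localization.Away (∏ i, r i)) P]
    [Module.Finite (Localization.Away (∏ i, r i)) P]
    [Module.Projective (Localization.Away (∏ i, r i)) P] :
    Module.Free (Localization.Away (∏ i, r i)) P :=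
  (unram (algebraMap V R) hπ hm hr hU).free P
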